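import Pool.Agent.Work.MP_7406cc_gt.UT.Stmts
import Pool.Agent.Work.MP_7406cc_gt.W.AlgK

/-!
# Block UT, item Al: the algebraic part
-/

set_option autoImplicit false

namespace Pool.Agent.Work.MP_7406cc_gt.UT

/-- Item Al. -/
theorem pr_Al : St_Al := by
  intro κ hκ X _ hX
  obtain ⟨Z, i1, i2, i3, J, π, hJ, hπ⟩ := W.exists_surjective_finsuppK hκ X hX
  exact ⟨Z, i1, i2, i3, J, hJ, π, hπ⟩

end Pool.Agent.Work.MP_7406cc_gt.UT
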