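import Pool.Agent.Work.MP_7406cc_gt.UT.Stmts

/-! Item Dg: the diagonal argument. -/

set_option autoImplicit false

open Filter Topology Set

namespace Pool.Agent.Work.MP_7406cc_gt.UT

theorem pr_Dg : St_Dg := by
  intro C S _ A y V hy hV
  by_contra hcon
  push Not at hcon
  choose U hU hno using hcon
  have hk : ∀ c : C, ∃ k : C → S, k ∈ U c ∧ ∀ c', k c' ∈ A (c, c') := by
    intro c
    have h1 : (fun c' => y (c, c')) ∈ closure (Set.pi univ fun c' => A (c, c')) := by
      rw [closure_pi_set]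
      intro c' _
      exact hy (c, c')
    rw [mem_closure_iff_nhds] at h1
    obtain ⟨k, hk1, hk2⟩ := h1 (U c) (hU c)
    exact ⟨k, hk1, fun c' => hk2 c' (mem_univ c')⟩
  choose k hk1 hk2 using hk
  have hA : ∀ n : C × C, (fun n : C × C => k n.1 n.2) n ∈ A n := fun n => hk2 n.1 n.2
  obtain ⟨c, hc⟩ := hV _ hA
  exact hno c _ hA hc (hk1 c)

end Pool.Agent.Work.MP_7406cc_gt.UT
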