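import Pool.Agent.Work.MP_7406cc_gt.UT.Stmts
import Pool.Agent.Work.MP_7406cc_gt.W.AlgK

/-!
# Block UT, item Du: the weight of a subspace of a power of the circle
-/

set_option autoImplicit false

open Filter Topology Set

namespace Pool.Agent.Work.MP_7406cc_gt.UT

namespace IDu

/-- A power of the circle with fewer than `κ` coordinates has weight less than `κ`. -/
theorem weight_pi_lt {κ : Cardinal.{0}} (hκ : Cardinal.aleph0 < κ) (I : Type)
    (hI : Cardinal.mk I < κ) :
    ∃ B : Set (Set (I → Circle)), Cardinal.mk B < κ ∧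
      TopologicalSpace.IsTopologicalBasis B := by
  classical
  let C : Set (Set Circle) := TopologicalSpace.countableBasis Circle
  have hC : C.Countable := TopologicalSpace.countable_countableBasis Circle
  have hCc : Countable C := hC.to_subtype
  have hCb : TopologicalSpace.IsTopologicalBasis C :=
    TopologicalSpace.isBasis_countableBasis Circle
  refine ⟨_, ?_, isTopologicalBasis_pi fun _ : I => hCb⟩
  have h1 : Cardinal.mk (Finset (I × C)) < κ := by
    apply W.small_finset hκ
    rw [Cardinal.mk_prod, Cardinal.lift_id, Cardinal.lift_id]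
    exact Cardinal.mul_lt_of_lt hκ.le hI (Cardinal.mk_le_aleph0.trans_lt hκ)
  refine lt_of_le_of_lt ?_ h1
  let g : Finset (I × C) → Set (I → Circle) := fun s => {x | ∀ q ∈ s, x q.1 ∈ q.2.1}
  refine (Cardinal.mk_le_mk_of_subset (t := Set.range g) ?_).trans Cardinal.mk_range_le
  rintro _ ⟨U, F, hF, rfl⟩
  refine ⟨F.attach.image fun i => (i.1, ⟨U i.1, hF i.1 i.2⟩), ?_⟩
  ext x
  simp only [g, Set.mem_ofPred_eq, Finset.mem_image, Finset.mem_attach, true_and,
    Subtype.exists, forall_exists_index, Set.mem_pi, Finset.mem_coe]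
  constructor
  · intro h i hi
    exact h (i, ⟨U i, hF i hi⟩) i hi rfl
  · rintro h q i hi rfl
    exact h i hi

end IDu

/-- Item Du. -/
theorem pr_Du : St_Du := by
  intro κ hκ G X _ f hf hG
  by_contra hX
  push Not at hX
  obtain ⟨B, hB, hBb⟩ := IDu.weight_pi_lt hκ X hX
  have h1 := hG _ (hBb.isInducing hf)
  exact absurd (h1.trans Cardinal.mk_image_le) (not_le.2 hB)

end Pool.Agent.Work.MP_7406cc_gt.UT
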