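import Pool.Agent.Work.MP_7406cc_gt.UT.Stmts

/-!
# Block UT, item Em: compact spaces of weight at most `κ` embed in a cube of `κ` intervals
-/

set_option autoImplicit false

open Filter Topology Set

namespace Pool.Agent.Work.MP_7406cc_gt.UT

namespace IEm

/-- One coordinate. -/
theorem one_coord (M : Type) [TopologicalSpace M] [NormalSpace M] (U V : Set M) (hV : IsOpen V) :
    ∃ g : M → unitInterval, Continuous g ∧
      (closure U ⊆ V → (∀ x ∈ closure U, g x = 0) ∧ ∀ x, x ∉ V → g x = 1) := by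
  by_cases h : closure U ⊆ V
  · obtain ⟨f, h0, h1, h01⟩ := exists_continuous_zero_one_of_isClosed (isClosed_closure (s := U))
      hV.isClosed_compl (Set.disjoint_left.2 fun x hx hx' => hx' (h hx))
    refine ⟨fun x => ⟨f x, h01 x⟩, f.continuous.subtype_mk _, fun _ => ⟨fun x hx => ?_, fun x hx => ?_⟩⟩
    · exact Subtype.ext (h0 hx)
    · exact Subtype.ext (h1 hx)
  · exact ⟨fun _ => 0, continuous_const, fun h' => absurd h' h⟩

end IEm

/-- The item Em. -/
theorem pr_Em : St_Em := by
  intro κ hκ Y M _ _ _ hY hw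
  obtain ⟨B, hB, hBκ⟩ := hw
  have hcoord : ∀ p : B × B, ∃ g : M → unitInterval, Continuous g ∧
      (closure (p.1 : Set M) ⊆ (p.2 : Set M) →
        (∀ x ∈ closure (p.1 : Set M), g x = 0) ∧ ∀ x, x ∉ (p.2 : Set M) → g x = 1) :=
    fun p => IEm.one_coord M p.1 p.2 (hB.isOpen p.2.2)
  choose g hgc hg using hcoord
  have hcard : Cardinal.mk (B × B) ≤ Cardinal.mk Y := by
    rw [Cardinal.mk_prod, Cardinal.lift_id, hY]
    calc Cardinal.mk B * Cardinal.mk B ≤ κ * κ := mul_le_mul' hBκ hBκ
      _ = κ := Cardinal.mul_eq_self hκ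
  obtain ⟨i⟩ := hcard
  have hval : ∀ (p : B × B) (x : M),
      Function.extend i (fun p => g p x) (fun _ => (0 : unitInterval)) (i p) = g p x :=
    fun p x => i.injective.extend_apply _ _ p
  refine ⟨fun x => Function.extend i (fun p => g p x) (fun _ => (0 : unitInterval)), ?_⟩
  refine Continuous.isClosedEmbedding ?_ ?_
  · refine continuous_pi fun y => ?_
    by_cases hy : ∃ p, i p = y
    · obtain ⟨p, rfl⟩ := hy
      have he : (fun x : M => Function.extend i (fun p => g p x) (fun _ => (0 : unitInterval)) (i p))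
          = g p := funext fun x => hval p x
      exact he ▸ hgc p
    · have he : (fun x : M => Function.extend i (fun p => g p x) (fun _ => (0 : unitInterval)) y)
          = fun _ => (0 : unitInterval) :=
        funext fun x => Function.extend_apply' _ _ y hy
      exact he ▸ continuous_const
  · intro x y hxy
    by_contra hne
    obtain ⟨V, hVB, hxV, hVs⟩ := hB.exists_subset_of_mem_open
      (show x ∈ ({y}ᶜ : Set M) from fun h => hne h) isOpen_compl_singleton
    obtain ⟨U, hUB, hxU, hUV⟩ := hB.exists_closure_subset ((hB.isOpen hVB).mem_nhds hxV)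
    have h1 := congrFun hxy (i (⟨U, hUB⟩, ⟨V, hVB⟩))
    have h2 := hval (⟨U, hUB⟩, ⟨V, hVB⟩) x
    have h3 := hval (⟨U, hUB⟩, ⟨V, hVB⟩) y
    have h4 : g (⟨U, hUB⟩, ⟨V, hVB⟩) x = g (⟨U, hUB⟩, ⟨V, hVB⟩) y := by
      rw [← h2, ← h3]; exact h1
    have h5 := hg (⟨U, hUB⟩, ⟨V, hVB⟩) hUV
    have h6 := h5.1 x (subset_closure hxU)
    have h7 := h5.2 y (fun hy => hVs hy rfl)
    rw [h6, h7] at h4
    exact zero_ne_one h4

end Pool.Agent.Work.MP_7406cc_gt.UT
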