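import Pool.Agent.Work.MP_7406cc_gt.UT.Stmts

/-!
# Block UT, item Hc: closed subspaces of the image
-/

set_option autoImplicit false

open Filter Topology Set

namespace Pool.Agent.Work.MP_7406cc_gt.UT

theorem pr_Hc : St_Hc := by
  intro G S M _ _ _ f hf hG
  obtain ⟨E, t, hE, ht, hq⟩ := hG
  have hcl : IsClosed (Subtype.val '' (t ⁻¹' (range f)) : Set G) :=
    hE.isClosedEmbedding_subtypeVal.isClosedMap _ (hf.isClosed_range.preimage ht)
  have hmem : ∀ x : (Subtype.val '' (t ⁻¹' (range f)) : Set G),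
      ∃ (h : x.1 ∈ E), t ⟨x.1, h⟩ ∈ range f := by
    rintro ⟨_, z, hz, rfl⟩
    exact ⟨z.2, hz⟩
  choose hm hr using hmem
  choose t' ht' using hr
  have hinj := hf.injective
  have hcont : Continuous t' := by
    rw [hf.isInducing.continuous_iff]
    have h1 : f ∘ t' = fun x => t ⟨x.1, hm x⟩ := funext ht'
    rw [h1]
    exact ht.comp (Continuous.subtype_mk continuous_subtype_val _)
  refine ⟨Subtype.val '' (t ⁻¹' (range f)), t', hcl, hcont, ?_⟩
  intro A y hy
  obtain ⟨x, hx, hxc⟩ := hq (f '' A) (f y) (mem_closure_image hf.continuous.continuousAt hy)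
  refine ⟨⟨x.1, x, ⟨y, hx.symm⟩, rfl⟩, ?_, ?_⟩
  · apply hinj
    rw [ht']
    exact hx
  · have key : ∀ x' : (Subtype.val '' (t ⁻¹' (range f)) : Set G),
        (x' : G) ∈ closure (Subtype.val '' (t' ⁻¹' A) : Set G) → x' ∈ closure (t' ⁻¹' A) :=
      fun x' => closure_subtype.2
    refine key _ ?_
    have h1 : x.1 ∈ closure (Subtype.val '' (t ⁻¹' (f '' A)) : Set G) :=
      mem_closure_image continuous_subtype_val.continuousAt hxc
    refine closure_mono ?_ h1
    rintro _ ⟨z, ⟨a, ha, haz⟩, rfl⟩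
    refine ⟨⟨z.1, z, ⟨a, haz⟩, rfl⟩, ?_, rfl⟩
    show t' _ ∈ A
    have h2 : t' ⟨z.1, z, ⟨a, haz⟩, rfl⟩ = a := by
      apply hinj
      rw [ht']
      exact haz.symm
    rw [h2]
    exact ha

end Pool.Agent.Work.MP_7406cc_gt.UT
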