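import Mathlib

/-!
# Block UT: minimal abelian groups as universal test spaces (captain helper50)

THEOREM. Let `κ` have uncountable cofinality and let `G` be a minimal abelian Hausdorff group of
weight `≥ κ`. Then every compact Hausdorff space of weight `≤ κ` is a hereditarily quotient image of a
closed subspace of `G`. Hence a pseudoradial minimal abelian group of weight `≥ κ` exists iff all
compact Hausdorff spaces of weight `≤ κ` are pseudoradial, and radial minimal abelian groups are
metrizable.

Item `X`: statement `St_X` below, file `UT/I_X.lean`, theorem `pr_X`, namespace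
`Pool.Agent.Work.MP_7406cc_gt.UT`, auxiliary lemmas in a sub-namespace `IX`. Import only this file.
Every docstring is the complete proof. The items Md Fr To Al are literal generalizations of the landed
file `MP_7406cc_gt/Alg.lean` (countable is replaced by: of cardinality less than `κ`).
-/

set_option autoImplicit false

open Filter Topology Set

namespace Pool.Agent.Work.MP_7406cc_gt.UT

/-- Pseudoradial spaces. -/
def PR (X : Type) [TopologicalSpace X] : Prop :=
  ∀ A : Set X, ¬ IsClosed A →
    ∃ (ι : Type) (_ : LinearOrder ι), WellFoundedLT ι ∧ Nonempty ι ∧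
      ∃ (x : ι → X) (p : X), (∀ i, x i ∈ A) ∧ p ∉ A ∧ Tendsto x atTop (𝓝 p)

/-- Radial spaces. -/
def RD (X : Type) [TopologicalSpace X] : Prop :=
  ∀ (A : Set X) (p : X), p ∈ closure A →
    ∃ (ι : Type) (_ : LinearOrder ι), WellFoundedLT ι ∧ Nonempty ι ∧
      ∃ x : ι → X, (∀ i, x i ∈ A) ∧ Tendsto x atTop (𝓝 p)

/-- `M` is a hereditarily quotient image of a closed subspace `E` of `G`. -/
def HQ (G M : Type) [TopologicalSpace G] [TopologicalSpace M] : Prop :=
  ∃ (E : Set G) (t : E → M), IsClosed E ∧ Continuous t ∧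
    ∀ (A : Set M) (y : M), y ∈ closure A → ∃ x : E, t x = y ∧ x ∈ closure (t ⁻¹' A)

/-- The weight is at least `κ`. -/
def WGe (κ : Cardinal.{0}) (X : Type) [TopologicalSpace X] : Prop :=
  ∀ B : Set (Set X), TopologicalSpace.IsTopologicalBasis B → κ ≤ Cardinal.mk B

/-- The weight is at most `κ`. -/
def WLe (κ : Cardinal.{0}) (X : Type) [TopologicalSpace X] : Prop :=
  ∃ B : Set (Set X), TopologicalSpace.IsTopologicalBasis B ∧ Cardinal.mk B ≤ κ

/-- The conclusion of the algebraic part. -/
def Concl (κ : Cardinal.{0}) (X : Type) [AddCommGroup X] : Prop :=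
  ∃ (Z : Type) (_ : AddCommGroup Z) (_ : Countable Z) (_ : Nontrivial Z)
    (J : Type) (_ : κ ≤ Cardinal.mk J) (π : X →+ (J →₀ Z)), Function.Surjective π

/-! ## Algebra -/

/-- Un (EASY).  `#(⋃ s n) ≤ sum ≤ ℵ₀ * sup` (`Cardinal.mk_iUnion_le_sum_mk`, `Cardinal.sum_le_iSup` or
`Cardinal.mk_iUnion_le`), the supremum is `< κ` because `#ℕ < cof κ` (`Cardinal.iSup_lt` or
`Cardinal.iSup_lt_of_lt_cof_ord` or similar; search for `lt_cof`), `ℵ₀ < κ` (`Cardinal.cof_ord_le` or `Ordinal.cof_ord_le`), `Cardinal.mul_lt_of_lt`. -/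
def St_Un : Prop := ∀ κ : Cardinal.{0}, Cardinal.aleph0 < κ.ord.cof → Cardinal.aleph0 < κ ∧
  ∀ (X : Type) (s : ℕ → Set X), (∀ n, Cardinal.mk (s n) < κ) →
    Cardinal.mk (⋃ n, s n : Set X) < κ

/-- Sq (EASY).  `G` is in bijection with `(G ⧸ s) × s`
(`AddSubgroup.addGroupEquivQuotientProdAddSubgroup`), `Cardinal.mul_lt_of_lt`.  The second part: the kernel
and the quotient by it, which embeds into `H` (`QuotientAddGroup.kerLift_injective`). -/
def St_Sq : Prop := ∀ κ : Cardinal.{0}, Cardinal.aleph0 ≤ κ →
  (∀ (G : Type) [AddCommGroup G] (s : AddSubgroup G), Cardinal.mk s < κ →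
    Cardinal.mk (G ⧸ s) < κ → Cardinal.mk G < κ) ∧
  ∀ (G H : Type) [AddCommGroup G] [AddCommGroup H] (f : G →+ H), Cardinal.mk H < κ →
    Cardinal.mk f.ker < κ → Cardinal.mk G < κ

/-- Md (EASY).  `exists_basis_fun` of `MP_7406cc_gt/Alg.lean`: a basis `b` indexed by `J`
(`Module.Basis.ofVectorSpace`), `e = b`, `r = b.repr`.  If `#J < κ` then `#(J →₀ k) < κ` (it is at most
`max (#J) ℵ₀`, e.g. `Cardinal.mk_finsupp_le` or `Cardinal.mk_finsupp_lift_of_infinite`; finite `J`: countable), so
`#W < κ`, a contradiction. -/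
def St_Md : Prop := ∀ κ : Cardinal.{0}, Cardinal.aleph0 < κ →
  ∀ (k W : Type) [Field k] [Countable k] [AddCommGroup W] [Module k W], κ ≤ Cardinal.mk W →
    ∃ (J : Type) (_ : κ ≤ Cardinal.mk J) (e : J → W) (r : W ≃+ (J →₀ k)),
      ∀ j, r (e j) = Finsupp.single j 1

/-- Fr (EASY-MEDIUM).  `case_free` of `MP_7406cc_gt/Alg.lean` (copy it; replace `Countable` by `# < κ` and use Un, Sq, Md):
`V[n]` has fewer than `κ` elements for all `n > 0`, so the torsion subgroup has (Un), so `ℚ ⊗ V` has
at least `κ` elements, and `V → ℚ ⊗ V` is surjective because `V` is divisible; Md for `k = ℚ`. -/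
def St_Fr : Prop := ∀ κ : Cardinal.{0}, Cardinal.aleph0 < κ.ord.cof →
  ∀ (V : Type) [AddCommGroup V], κ ≤ Cardinal.mk V →
    (∀ n : ℕ, n ≠ 0 → ∀ v : V, ∃ w, n • w = v) →
    (∀ p : ℕ, p.Prime → Cardinal.mk (nsmulAddMonoidHom p : V →+ V).ker < κ) → Concl κ V

/-- To (EASY-MEDIUM).  `case_torsion` of `MP_7406cc_gt/Alg.lean` with Md in place of `exists_basis_fun` (copy it, or import
`Pool.Agent.Work.MP_7406cc_gt.Alg` and use its lemmas `F1 F2 F3 F4 F6`). -/
def St_To : Prop := ∀ κ : Cardinal.{0}, Cardinal.aleph0 < κ → ∀ (p : ℕ), p.Prime →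
  ∀ (V : Type) [AddCommGroup V], (∀ n : ℕ, n ≠ 0 → ∀ v : V, ∃ w, n • w = v) →
    κ ≤ Cardinal.mk (nsmulAddMonoidHom p : V →+ V).ker → Concl κ V

/-- Al (EASY-MEDIUM).  `case_one` and `exists_surjective_finsupp` of `MP_7406cc_gt/Alg.lean`.  If `X/pX` has at least `κ` elements for
a prime `p`: Md for `ZMod p`.  Otherwise let `B` be the subgroup generated by representatives of all `X/pX`: it has fewer
than `κ` elements (Un; the subgroup generated by a set `S` with `# < κ` is the range of a map from `S →₀ ℤ`), `V = X/B` is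
divisible and has at least `κ` elements (Sq).  To or Fr.  USES Un Sq Md Fr To. -/
def St_Al : Prop := ∀ κ : Cardinal.{0}, Cardinal.aleph0 < κ.ord.cof →
  ∀ (X : Type) [AddCommGroup X], κ ≤ Cardinal.mk X → Concl κ X

/-! ## Topology -/

/-- Du (EASY-MEDIUM).  Suppose `#X < κ`.  Let `b` be a countable base of `Circle`.  The sets `{g | f g χ ∈ O}` (`χ ∈ X`, `O ∈ b`) form a
subbase of `G` (`f` is inducing; or: `isTopologicalBasis_pi` with `b`, then `IsTopologicalBasis.isInducing`), at most `max (#X) ℵ₀` of them, so their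
finite intersections form a base (`isTopologicalBasis_of_subbasis`) with at most `max (#X) ℵ₀ < κ` elements
(`Cardinal.mk_finset_of_infinite`, or the number of pairs of a finite set `F ⊂ X` and a function `F → b`), a contradiction. -/
def St_Du : Prop := ∀ κ : Cardinal.{0}, Cardinal.aleph0 < κ →
  ∀ (G X : Type) [TopologicalSpace G] (f : G → (X → Circle)), Topology.IsInducing f → WGe κ G →
    κ ≤ Cardinal.mk X

/-- Dg (EASY).  THE DIAGONAL ARGUMENT.  Otherwise for every `c` there is a neighbourhood `U c` of
`fun c' => y (c, c')` such that no `h` with `h n ∈ A n` for all `n` and `h ∈ V c` has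
`(fun c' => h (c, c')) ∈ U c`.  By `closure_pi_set` (with `univ`) `fun c' => y (c, c')` is in the closure of
`Set.pi univ fun c' => A (c, c')`, so choose `k c` in this product and in `U c`.  Let `h (c, c') = k c c'`; by hypothesis
`h ∈ V c` for some `c`, a contradiction. -/
def St_Dg : Prop := ∀ (C S : Type) [TopologicalSpace S] (A : C × C → Set S) (y : C × C → S)
  (V : C → Set (C × C → S)), (∀ n, y n ∈ closure (A n)) →
  (∀ h : C × C → S, (∀ n, h n ∈ A n) → ∃ c, h ∈ V c) →
  ∃ c, ∀ U ∈ 𝓝 (fun c' => y (c, c')), ∃ h : C × C → S, (∀ n, h n ∈ A n) ∧ h ∈ V c ∧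
    (fun c' => h (c, c')) ∈ U

/-- Em (EASY-MEDIUM).  Let `B` be a base with at most `κ` elements, `P` the set of the pairs `(U, V)` of members of `B` with
`closure U ⊆ V` and let `f_(U,V) : M → [0,1]` be continuous, `0` on `closure U` and `1` outside `V` (`exists_continuous_zero_one_of_isClosed`).
`#P ≤ κ * κ = κ = #Y`: choose a surjection or an injection `P → Y`, and let the coordinates outside the range be `0`.  The map `M → (Y → [0,1])`
is continuous and injective: for `x ≠ y` choose `V ∈ B`, `x ∈ V`, `y ∉ V`, and `U ∈ B`, `x ∈ U`, `closure U ⊆ V` (regularity,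
`IsTopologicalBasis.exists_closure_subset`).  `Continuous.isClosedEmbedding`.  (`κ` is infinite.) -/
def St_Em : Prop := ∀ κ : Cardinal.{0}, Cardinal.aleph0 ≤ κ →
  ∀ (Y M : Type) [TopologicalSpace M] [CompactSpace M] [T2Space M], Cardinal.mk Y = κ →
    WLe κ M → ∃ f : M → (Y → unitInterval), Topology.IsClosedEmbedding f

/-- Su (EASY).  `exists_nat_bool_continuous_surjective_of_compact unitInterval`, coordinatewise on `(Y × ℕ → Bool) ≅ (Y → ℕ → Bool)`, and a
bijection `Y ≃ Y × ℕ` (`Y` is infinite). -/
def St_Su : Prop := ∀ Y : Type, Infinite Y →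
  ∃ q : (Y → Bool) → (Y → unitInterval), Continuous q ∧ Function.Surjective q

/-- Hi (EASY).  The map `q ∘ t` on the same `E`.  For `y ∈ closure A`: `q` is closed, so `q (closure (q⁻¹ A))` is closed and contains `A` (`q` is
surjective), so there is `z ∈ closure (q⁻¹ A)`, `q z = y`; the property of `t` for `q⁻¹ A`, `z`. -/
def St_Hi : Prop := ∀ (G S M : Type) [TopologicalSpace G] [TopologicalSpace S]
  [TopologicalSpace M] [CompactSpace S] [T2Space M] (q : S → M), Continuous q →
  Function.Surjective q → HQ G S → HQ G M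

/-- Hc (EASY-MEDIUM).  `E' = {x : E | t x ∈ range f}` as a subset of `G` (closed in `E`, so in `G`), `t' x` the preimage of `t x`
(`f` is an embedding, so `t'` is continuous).  For `y ∈ closure A`: `f y ∈ closure (f '' A)`, so there is `x ∈ E`, `t x = f y`,
`x ∈ closure (t⁻¹ (f '' A))`; `t⁻¹ (f '' A) ⊆ E'`, and the closure in `E'` is the trace of the closure in `G`
(`closure_subtype` or `Topology.IsInducing.closure_eq_preimage_closure_image`). -/
def St_Hc : Prop := ∀ (G S M : Type) [TopologicalSpace G] [TopologicalSpace S]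
  [TopologicalSpace M] (f : M → S), Topology.IsClosedEmbedding f → HQ G S → HQ G M

/-- Pr (EASY).  `A` not closed in `M`, `y ∈ closure A`, `y ∉ A`, `x ∈ E` as in `HQ`.  The set `A' = Subtype.val '' (t⁻¹ A)` is not closed in
`G`: `x` is in its closure and `t x = y ∉ A`.  So a transfinite sequence in `A'` converges to `p ∉ A'`, `p ∈ E` (`E` is closed, `atTop` is not trivial),
and its image converges to `t p ∉ A`. -/
def St_Pr : Prop := ∀ (G M : Type) [TopologicalSpace G] [TopologicalSpace M], HQ G M → PR G → PR M

/-- Ra (EASY).  `y ∈ closure A`, `x ∈ E` as in `HQ`; `x` is in the closure of `Subtype.val '' (t⁻¹ A)` in `G`, so a transfinite sequence in this set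
converges to `x`, and its image converges to `t x = y`. -/
def St_Ra : Prop := ∀ (G M : Type) [TopologicalSpace G] [TopologicalSpace M], HQ G M → RD G → RD M

/-- Nr (EASY-MEDIUM).  `A` = the functions with finite support (`{j | x j = true}` finite), `p` = the function `true`, in the closure of `A`.  Suppose
`x i ∈ A`, `x i → p`, `i` in a linear order `ι`.  For every `n` there is `b n` such that for `i ≥ b n` the support of `x i` has at least `n` elements (choose `n` different
elements of `Y`; eventually `x i` is `true` there).  If some `i` is `≥ b n` for all `n`: its support is infinite, a contradiction.  So for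
every `i` there is `n` with `i < b n`; for every `j ∈ Y` eventually `x i j = true`, so (take `i₀` with this for `i ≥ i₀`, and `n` with `i₀ < b n`)
`j` is in the support of `x (b n)`: `Y` is the union of countably many finite sets, a contradiction. -/
def St_Nr : Prop := ∀ Y : Type, Uncountable Y → ¬ RD (Y → Bool)

/-- Wt (EASY-MEDIUM).  Upper bound: the base of the sets `{x | ∀ j ∈ s, x j = z j}`, `s` finite (`isTopologicalBasis_pi` with singletons); it is the image of the
set of the partial functions with finite domain, at most `#Y`.  Lower bound: let `B` be a base, `v ≠ w` in `F`.  For `j ∈ Y` the set `{x | x j = v}` is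
compact and open, so a finite union of members of `B`; these sets are different for different `j`, so `#Y` is at most the number of finite subsets of
`B`; so `B` is infinite and `#Y ≤ #B` (`Cardinal.mk_finset_of_infinite`). -/
def St_Wt : Prop := ∀ (F Y : Type) [Finite F] [TopologicalSpace F] [DiscreteTopology F]
  [Nontrivial F] [Infinite Y], WGe (Cardinal.mk Y) (Y → F) ∧ WLe (Cardinal.mk Y) (Y → F)

/-- Wm (EASY).  A countable base gives `SecondCountableTopology`, so `MetrizableSpace` (instance `metrizableSpace_of_t3_secondCountable`).  So no base is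
countable. -/
def St_Wm : Prop := ∀ (X : Type) [TopologicalSpace X] [T3Space X],
  ¬ TopologicalSpace.MetrizableSpace X → WGe (Cardinal.aleph 1) X

end Pool.Agent.Work.MP_7406cc_gt.UT
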