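import Mathlib
import Pool.Agent.Work.MP_7406cc_gt.UT.Stmts

/-!
# Block UT, item Hi: images of hereditarily quotient images
-/

set_option autoImplicit false

open Filter Topology Set

namespace Pool.Agent.Work.MP_7406cc_gt.UT

namespace IHi

theorem lift {S M : Type} [TopologicalSpace S] [TopologicalSpace M] [CompactSpace S]
    [T2Space M] (q : S → M) (hq : Continuous q) (hs : Function.Surjective q) (A : Set M) (y : M)
    (hy : y ∈ closure A) : ∃ z ∈ closure (q ⁻¹' A), q z = y := by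
  have h1 : IsClosed (q '' closure (q ⁻¹' A)) := hq.isClosedMap _ isClosed_closure
  have h2 : A ⊆ q '' closure (q ⁻¹' A) := by
    intro a ha
    obtain ⟨z, rfl⟩ := hs a
    exact ⟨z, subset_closure ha, rfl⟩
  exact closure_minimal h2 h1 hy

end IHi

theorem pr_Hi : St_Hi := by
  intro G S M _ _ _ _ _ q hq hs h
  obtain ⟨E, t, hE, ht, h⟩ := h
  refine ⟨E, q ∘ t, hE, hq.comp ht, fun A y hy => ?_⟩
  obtain ⟨z, hz, rfl⟩ := IHi.lift q hq hs A y hy
  obtain ⟨x, hx1, hx2⟩ := h (q ⁻¹' A) z hz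
  refine ⟨x, ?_, ?_⟩
  · rw [Function.comp_apply, hx1]
  · rw [Set.preimage_comp]
    exact hx2

end Pool.Agent.Work.MP_7406cc_gt.UT
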