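import Pool.Agent.Work.MP_7406cc_gt.UT.Stmts

set_option autoImplicit false

open Filter Topology Set

namespace Pool.Agent.Work.MP_7406cc_gt.UT

namespace INr

/-- the functions with finite support -/
def FS (Y : Type) : Set (Y → Bool) := {x | {j | x j = true}.Finite}

lemma mem_closure_FS (Y : Type) : (fun _ => true : Y → Bool) ∈ closure (FS Y) := by
  classical
  have ht : Tendsto (fun F : Finset Y => (fun j => decide (j ∈ F) : Y → Bool)) atTop
      (𝓝 (fun _ => true : Y → Bool)) := by
    rw [tendsto_pi_nhds]
    intro j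
    apply tendsto_const_nhds.congr'
    filter_upwards [eventually_ge_atTop ({j} : Finset Y)] with F hF
    have hj : j ∈ F := hF (Finset.mem_singleton_self j)
    exact (decide_eq_true hj).symm
  refine mem_closure_of_tendsto ht (Eventually.of_forall ?_)
  intro F
  show {j | decide (j ∈ F) = true}.Finite
  refine F.finite_toSet.subset ?_
  intro j hj
  exact of_decide_eq_true hj

end INr

open INr in
theorem pr_Nr : St_Nr := by
  intro Y hY hRD
  obtain ⟨ι, hlin, _, hne, x, hxA, hx⟩ := hRD (FS Y) (fun _ => true) (mem_closure_FS Y)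
  have hinf : Infinite Y := inferInstance
  have hev : ∀ j : Y, ∀ᶠ i in atTop, x i j = true := by
    intro j
    have h1 := (tendsto_pi_nhds.1 hx) j
    have h2 : ({true} : Set Bool) ∈ 𝓝 true := by simp
    exact h1 h2
  let e := Infinite.natEmbedding Y
  have hb : ∀ n : ℕ, ∃ b : ι, ∀ i, b ≤ i → ∀ m ∈ Finset.range n, x i (e m) = true := by
    intro n
    have h1 : ∀ᶠ i in atTop, ∀ m ∈ Finset.range n, x i (e m) = true :=
      (Filter.eventually_all_finset (Finset.range n)).2 (fun m _ => hev (e m))
    exact eventually_atTop.1 h1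
  choose b hb using hb
  have hlt : ∀ i : ι, ∃ n, i < b n := by
    intro i
    by_contra hcon
    push Not at hcon
    have hfin : {j | x i j = true}.Finite := hxA i
    have hsub : Set.range e ⊆ {j | x i j = true} := by
      rintro _ ⟨m, rfl⟩
      exact hb (m + 1) i (hcon (m + 1)) m (Finset.mem_range.2 (Nat.lt_succ_self m))
    exact Set.infinite_range_of_injective e.injective (hfin.subset hsub)
  have hcov : (Set.univ : Set Y) ⊆ ⋃ n : ℕ, {j | x (b n) j = true} := by
    intro j _
    obtain ⟨i₀, hi₀⟩ := eventually_atTop.1 (hev j)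
    obtain ⟨n, hn⟩ := hlt i₀
    exact Set.mem_iUnion.2 ⟨n, hi₀ (b n) hn.le⟩
  have hcount : (Set.univ : Set Y).Countable :=
    (Set.countable_iUnion fun n => (Set.Finite.countable (hxA (b n)))).mono hcov
  exact (not_countable_iff.2 hY) (Set.countable_univ_iff.1 hcount)

end Pool.Agent.Work.MP_7406cc_gt.UT
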