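import Pool.Agent.Work.MP_7406cc_gt.UT.Stmts

/-! Item Ra of block UT -/

set_option autoImplicit false

open Filter Topology Set

namespace Pool.Agent.Work.MP_7406cc_gt.UT

theorem pr_Ra : St_Ra := by
  intro G M _ _ hQ hR A y hy
  obtain ⟨E, t, _, ht, hq⟩ := hQ
  obtain ⟨x, hx, hxc⟩ := hq A y hy
  have h1 : (x : G) ∈ closure (Subtype.val '' (t ⁻¹' A)) := closure_subtype.mp hxc
  obtain ⟨ι, lo, wf, ne, s, hs, hlim⟩ := hR _ _ h1
  choose u hu hu' using hs
  refine ⟨ι, lo, wf, ne, fun i => t (u i), hu, ?_⟩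
  have h2 : Tendsto u atTop (𝓝 x) := by
    rw [tendsto_subtype_rng]
    have h3 : (fun i => (u i : G)) = s := funext hu'
    rw [h3]
    exact hlim
  rw [← hx]
  exact (ht.tendsto x).comp h2

end Pool.Agent.Work.MP_7406cc_gt.UT
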