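import Pool.Agent.Work.MP_7406cc_gt.UT.Stmts

/-!
# Block UT, item Su (helper37)
-/

set_option autoImplicit false

open Filter Topology Set

namespace Pool.Agent.Work.MP_7406cc_gt.UT

namespace ISu

theorem equiv (Y : Type) [Infinite Y] : Nonempty (Y ≃ Y × ℕ) := by
  rw [← Cardinal.eq, Cardinal.mk_prod, Cardinal.lift_id, Cardinal.lift_id, Cardinal.mk_nat]
  exact (Cardinal.mul_aleph0_eq (Cardinal.aleph0_le_mk Y)).symm

end ISu

theorem pr_Su : St_Su := by
  intro Y hY
  obtain ⟨f, hf, hs⟩ := exists_nat_bool_continuous_surjective_of_compact unitInterval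
  obtain ⟨e⟩ := ISu.equiv Y
  refine ⟨fun x y => f (fun n => x (e.symm (y, n))), ?_, ?_⟩
  · exact continuous_pi fun y => hf.comp (continuous_pi fun n => continuous_apply _)
  · intro z
    choose g hg using fun y => hs (z y)
    refine ⟨fun y' => g (e y').1 (e y').2, ?_⟩
    funext y
    show f (fun n => g (e (e.symm (y, n))).1 (e (e.symm (y, n))).2) = z y
    rw [← hg y]
    congr 1
    funext n
    rw [Equiv.apply_symm_apply]

end Pool.Agent.Work.MP_7406cc_gt.UT
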