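import Pool.Agent.Work.MP_7406cc_gt.UT.Stmts

set_option autoImplicit false

namespace Pool.Agent.Work.MP_7406cc_gt.UT

/-- Item Un: countable unions of sets of cardinality less than a cardinal of uncountable cofinality. -/
theorem pr_Un : St_Un := by
  intro κ hκ
  have h1 : Cardinal.aleph0 < κ := lt_of_lt_of_le hκ (Ordinal.cof_ord_le κ)
  refine ⟨h1, ?_⟩
  intro X s hs
  have h2 : (Cardinal.mk (⋃ n, s n : Set X)) ≤ Cardinal.sum fun n => Cardinal.mk (s n) :=
    Cardinal.mk_iUnion_le_sum_mk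
  refine lt_of_le_of_lt h2 ?_
  refine lt_of_le_of_lt (Cardinal.sum_le_mk_mul_iSup _) ?_
  have h3 : Cardinal.mk ℕ < κ.ord.cof := by rw [Cardinal.mk_nat]; exact hκ
  exact Cardinal.mul_lt_of_lt h1.le (by rw [Cardinal.mk_nat]; exact h1)
    (Cardinal.iSup_lt_of_lt_cof_ord h3 hs)

end Pool.Agent.Work.MP_7406cc_gt.UT
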