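import Pool.Agent.Work.MP_7406cc_gt.UT.Stmts

/-!
# Block UT, item Wm: the weight of spaces which are not metrizable
-/

set_option autoImplicit false

open Filter Topology Set

namespace Pool.Agent.Work.MP_7406cc_gt.UT

theorem pr_Wm : St_Wm := by
  intro X _ _ hX B hB
  by_contra hlt
  rw [not_le] at hlt
  have hc : B.Countable := (Cardinal.countable_iff_lt_aleph_one B).2 hlt
  have h2 : SecondCountableTopology X := hB.secondCountableTopology hc
  exact hX inferInstance

end Pool.Agent.Work.MP_7406cc_gt.UT
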