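import Pool.Agent.Work.MP_7406cc_gt.UT.Stmts

/-!
# Block UT, item Wt: the weight of `Y → F`, `F` finite and discrete
-/

set_option autoImplicit false

open Filter Topology Set

namespace Pool.Agent.Work.MP_7406cc_gt.UT

namespace IWt

/-- The basic open set of a finite set of conditions `x j = a`. -/
def U {F Y : Type} (t : Finset (Y × F)) : Set (Y → F) := {x | ∀ p ∈ t, x p.1 = p.2}

theorem isOpen_U {F Y : Type} [TopologicalSpace F] [DiscreteTopology F] (t : Finset (Y × F)) :
    IsOpen (U t) := by
  have h : U t = ⋂ p ∈ t, {x : Y → F | x p.1 = p.2} := by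
    ext x
    rw [mem_iInter₂]
    exact Iff.rfl
  rw [h]
  refine isOpen_biInter_finset fun p _ => ?_
  have hc : Continuous fun x : Y → F => x p.1 := continuous_apply p.1
  exact (isOpen_discrete ({p.2} : Set F)).preimage hc

open Classical in
theorem basis_U {F Y : Type} [TopologicalSpace F] [DiscreteTopology F] :
    TopologicalSpace.IsTopologicalBasis (range (U : Finset (Y × F) → Set (Y → F))) := by
  refine TopologicalSpace.isTopologicalBasis_of_isOpen_of_nhds ?_ ?_
  · rintro _ ⟨t, rfl⟩
    exact isOpen_U t
  · intro a u hau hu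
    obtain ⟨I, w, hw, hsub⟩ := isOpen_pi_iff.1 hu a hau
    refine ⟨U (I.image fun i => (i, a i)), ⟨_, rfl⟩, ?_, ?_⟩
    · intro p hp
      obtain ⟨i, _, rfl⟩ := Finset.mem_image.1 hp
      rfl
    · intro x hx
      apply hsub
      intro i hi
      have h1 : x i = a i := hx (i, a i) (Finset.mem_image.2 ⟨i, hi, rfl⟩)
      rw [h1]
      exact (hw i hi).2

theorem wle (F Y : Type) [Finite F] [TopologicalSpace F] [DiscreteTopology F]
    [Nontrivial F] [Infinite Y] : WLe (Cardinal.mk Y) (Y → F) := by
  refine ⟨range (U : Finset (Y × F) → Set (Y → F)), basis_U, ?_⟩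
  refine Cardinal.mk_range_le.trans ?_
  rw [Cardinal.mk_finset_of_infinite, Cardinal.mk_prod, Cardinal.lift_id, Cardinal.lift_id]
  have hY : Cardinal.aleph0 ≤ Cardinal.mk Y := Cardinal.aleph0_le_mk Y
  refine (Cardinal.mul_le_max_of_aleph0_le_left hY).trans ?_
  refine max_le le_rfl (le_trans ?_ hY)
  exact (Cardinal.lt_aleph0_of_finite F).le

open Classical in
theorem wge (F Y : Type) [Finite F] [TopologicalSpace F] [DiscreteTopology F]
    [Nontrivial F] [Infinite Y] : WGe (Cardinal.mk Y) (Y → F) := by
  intro B hB
  obtain ⟨v, w, hvw⟩ := exists_pair_ne F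
  have hK : ∀ j : Y, ∃ s : Finset B, {x : Y → F | x j = v} = ⋃ i ∈ s, (i : Set (Y → F)) := by
    intro j
    have hj : Continuous fun x : Y → F => x j := continuous_apply j
    have hc : IsClosed {x : Y → F | x j = v} := (isClosed_discrete ({v} : Set F)).preimage hj
    have ho : IsOpen {x : Y → F | x j = v} := (isOpen_discrete ({v} : Set F)).preimage hj
    have hb : TopologicalSpace.IsTopologicalBasis (range (Subtype.val : B → Set (Y → F))) := by
      rw [Subtype.range_coe]
      exact hB
    obtain ⟨s, hs, he⟩ := eq_finite_iUnion_of_isTopologicalBasis_of_isCompact_open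
      (Subtype.val : B → Set (Y → F)) hb _ hc.isCompact ho
    refine ⟨hs.toFinset, ?_⟩
    rw [he]
    ext x
    simp only [mem_iUnion, Finite.mem_toFinset]
  choose s hs using hK
  have hinj : Function.Injective s := by
    intro j j' hjj
    by_contra hne
    have h1 : {x : Y → F | x j = v} = {x : Y → F | x j' = v} := by
      rw [hs j, hs j', hjj]
    have h2 : Function.update (fun _ : Y => v) j' w ∈ {x : Y → F | x j = v} := by
      show Function.update (fun _ : Y => v) j' w j = v
      rw [Function.update_of_ne hne]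
    rw [h1] at h2
    have h3 : Function.update (fun _ : Y => v) j' w j' = v := h2
    rw [Function.update_self] at h3
    exact hvw h3.symm
  have hinf : Infinite B := by
    by_contra hfin
    rw [not_infinite_iff_finite] at hfin
    have : Finite Y := Finite.of_injective s hinj
    exact not_finite Y
  calc Cardinal.mk Y ≤ Cardinal.mk (Finset B) := Cardinal.mk_le_of_injective hinj
    _ = Cardinal.mk B := Cardinal.mk_finset_of_infinite B

end IWt

theorem pr_Wt : St_Wt := by
  intro F Y _ _ _ _ _
  exact ⟨IWt.wge F Y, IWt.wle F Y⟩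

end Pool.Agent.Work.MP_7406cc_gt.UT
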