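import Pool.Agent.Work.MP_7406cc_gt.UT.Final
import Pool.Agent.Work.MP_7406cc_gt.UT.I_Al
import Pool.Agent.Work.MP_7406cc_gt.UT.I_Du
import Pool.Agent.Work.MP_7406cc_gt.UT.I_Dg
import Pool.Agent.Work.MP_7406cc_gt.UT.I_Su
import Pool.Agent.Work.MP_7406cc_gt.UT.I_Hi
import Pool.Agent.Work.MP_7406cc_gt.UT.I_Em
import Pool.Agent.Work.MP_7406cc_gt.UT.I_Hc
import Pool.Agent.Work.MP_7406cc_gt.UT.I_Un
import Pool.Agent.Work.MP_7406cc_gt.UT.I_Pr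
import Pool.Agent.Work.MP_7406cc_gt.UT.I_Ra
import Pool.Agent.Work.MP_7406cc_gt.UT.I_Nr
import Pool.Agent.Work.MP_7406cc_gt.UT.I_Wt
import Pool.Agent.Work.MP_7406cc_gt.UT.I_Wm

/-!
# Block UT: all items
-/

set_option autoImplicit false

namespace Pool.Agent.Work.MP_7406cc_gt.UT

theorem all_UT : Main_UT :=
  main_UT pr_Al pr_Du pr_Dg pr_Su pr_Hi pr_Em pr_Hc pr_Un pr_Pr pr_Ra pr_Nr pr_Wt pr_Wm

end Pool.Agent.Work.MP_7406cc_gt.UT
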