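import Pool.Agent.Work.MP_7406cc_gt.Main
import Pool.Agent.Work.MP_7406cc_gt.UT.Stmts

/-!
# Item Mn of block UT: the main argument (helper50)
-/

set_option autoImplicit false

open scoped Topology
open Filter Set

namespace Pool.Agent.Work.MP_7406cc_gt.UT

open Pool.Agent.Work.MP_7406cc_gt.Main

namespace IMn

theorem exists_select {H : Type} (u : Filter (ℕ × H)) (hu : Tendsto Prod.fst u atTop)
    (P : ℕ → Set (ℕ × H)) (hP : ∀ j, P j ∈ u) :
    ∃ f : ℕ × H → ℕ, Tendsto f u atTop ∧ ∀ᶠ n in u, n ∈ P (f n) := by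
  classical
  refine ⟨fun n => Nat.findGreatest (fun j => n ∈ P j) n.1, ?_, ?_⟩
  · rw [tendsto_atTop]
    intro j
    filter_upwards [hP j, hu (Ici_mem_atTop j)] with n hn hjn
    exact Nat.le_findGreatest hjn hn
  · filter_upwards [hP 0] with n hn
    exact Nat.findGreatest_spec (P := fun j => n ∈ P j) (Nat.zero_le _) hn

section

variable {Z J : Type} [AddCommGroup Z]

theorem zT_eventually {I : Type} (u : Ultrafilter I) (T : I → Set J) (f : J →₀ Z) :
    ∀ᶠ n in (u : Filter I), zT (T n) f = zT {j | ∀ᶠ n in (u : Filter I), j ∈ T n} f := by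
  classical
  have h1 : ∀ᶠ n in (u : Filter I), ∀ j ∈ f.support,
      (j ∈ T n ↔ ∀ᶠ n in (u : Filter I), j ∈ T n) := by
    rw [Filter.eventually_all_finset]
    intro j _
    by_cases hj : ∀ᶠ n in (u : Filter I), j ∈ T n
    · filter_upwards [hj] with n hn
      exact ⟨fun _ => hj, fun _ => hn⟩
    · have h2 : ∀ᶠ n in (u : Filter I), j ∉ T n := Ultrafilter.eventually_not.2 hj
      filter_upwards [h2] with n hn
      exact ⟨fun h => absurd h hn, fun h => absurd h hj⟩
  filter_upwards [h1] with n hn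
  rw [zT_apply, zT_apply]
  apply Finset.sum_congr rfl
  intro j hj
  have h2 := hn j hj
  simp only [Set.mem_ofPred_eq]
  by_cases h3 : j ∈ T n
  · rw [if_pos h3, if_pos (h2.1 h3)]
  · rw [if_neg h3, if_neg (fun h => h3 (h2.2 h))]

variable {K : Type} [CommGroup K] [TopologicalSpace K] [IsTopologicalGroup K]
  [CompactSpace K] [T2Space K] (π : Additive (K →ₜ* Circle) →+ (J →₀ Z))

theorem hevalc (b : Multiplicative Z) :
    Continuous fun ψ : Dual.homs (Multiplicative Z) => ψ.1 b :=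
  (continuous_apply b).comp continuous_subtype_val

theorem tendsto_pt {I : Type} (u : Ultrafilter I) (ψ : I → Dual.homs (Multiplicative Z))
    (T : I → Set J) (φ : Dual.homs (Multiplicative Z)) (h : Tendsto ψ u (𝓝 φ)) :
    Tendsto (fun i => pt π (ψ i) (T i)) u
      (𝓝 (pt π φ {j | ∀ᶠ n in (u : Filter I), j ∈ T n})) := by
  rw [Dual.tendsto_iff]
  intro χ
  rw [pt_spec]
  have h1 : ∀ᶠ n in (u : Filter I), χ (pt π (ψ n) (T n)) =
      (ψ n).1 (Multiplicative.ofAdd (zT {j | ∀ᶠ n in (u : Filter I), j ∈ T n}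
        (π (Additive.ofMul χ)))) := by
    filter_upwards [zT_eventually u T (π (Additive.ofMul χ))] with n hn'
    rw [pt_spec, hn']
  refine Tendsto.congr' (h1.mono fun n h => h.symm) ?_
  exact ((hevalc _).tendsto φ).comp h

/-- the elements of `G` which are points of `K` with a homomorphism which is not small at `c` -/
def EE {G : Type} [CommGroup G] (ι : G →* K) (c : Z × ℕ) : Set G :=
  {g | ∃ (ψ : Dual.homs (Multiplicative Z)) (T : Set J), ι g = pt π ψ T ∧
    1 / ((c.2 : ℝ) + 1) ≤ dist (ψ.1 (Multiplicative.ofAdd c.1)) 1}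

theorem isClosed_EE {G : Type} [CommGroup G] [TopologicalSpace G] (ι : G →* K)
    (hι : Topology.IsEmbedding ι) (c : Z × ℕ) : IsClosed (EE π ι c) := by
  classical
  have hcompL : CompactSpace (Dual.homs (Multiplicative Z)) :=
    isCompact_iff_compactSpace.1 (Dual.isClosed_homs (Multiplicative Z)).isCompact
  rw [isClosed_iff_ultrafilter]
  intro g u hu hE
  have hch : ∀ x : G, ∃ (ψ : Dual.homs (Multiplicative Z)) (T : Set J), x ∈ EE π ι c →
      ι x = pt π ψ T ∧ 1 / ((c.2 : ℝ) + 1) ≤ dist (ψ.1 (Multiplicative.ofAdd c.1)) 1 := by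
    intro x
    by_cases hx : x ∈ EE π ι c
    · obtain ⟨ψ, T, h⟩ := hx
      exact ⟨ψ, T, fun _ => h⟩
    · exact ⟨1, ∅, fun h => absurd h hx⟩
  choose Ψ TT hΨ using hch
  obtain ⟨φ, -, hφ⟩ := (isCompact_univ (X := Dual.homs (Multiplicative Z))).ultrafilter_le_nhds
    (u.map Ψ) (by simp)
  have hφlim : Tendsto Ψ u (𝓝 φ) := hφ
  refine ⟨φ, {j | ∀ᶠ n in (u : Filter G), j ∈ TT n}, ?_, ?_⟩
  · have h1 := tendsto_pt π u Ψ TT φ hφlim
    have h2 : Tendsto ι u (𝓝 (ι g)) := (hι.continuous.tendsto g).mono_left hu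
    have h3 : Tendsto ι u (𝓝 (pt π φ {j | ∀ᶠ n in (u : Filter G), j ∈ TT n})) := by
      refine Tendsto.congr' ?_ h1
      have hE' : ∀ᶠ x in (u : Filter G), x ∈ EE π ι c := hE
      exact hE'.mono fun x hx => ((hΨ x hx).1).symm
    exact tendsto_nhds_unique h2 h3
  · have h1 : Tendsto (fun n => dist ((Ψ n).1 (Multiplicative.ofAdd c.1)) 1) u
        (𝓝 (dist (φ.1 (Multiplicative.ofAdd c.1)) 1)) :=
      (((hevalc _).tendsto φ).comp hφlim).dist tendsto_const_nhds
    have hE' : ∀ᶠ x in (u : Filter G), x ∈ EE π ι c := hE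
    exact ge_of_tendsto h1 (hE'.mono fun x hx => (hΨ x hx).2)

end

end IMn

open IMn in
/-- The main argument. -/
theorem pr_Mn (hDg : St_Dg) {Z J : Type} [AddCommGroup Z] {K : Type} [CommGroup K]
    [TopologicalSpace K] [IsTopologicalGroup K] [CompactSpace K] [T2Space K]
    (π : Additive (K →ₜ* Circle) →+ (J →₀ Z))
    {G : Type} [CommGroup G] [TopologicalSpace G] (ι : G →* K) (hι : Topology.IsEmbedding ι)
    (hess : ∀ M : Subgroup K, IsClosed (M : Set K) → M ≠ ⊥ → ∃ g : G, g ≠ 1 ∧ ι g ∈ M)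
    [Countable Z] [Nontrivial Z] (hπ : Function.Surjective π) (Y : Type) [Infinite Y]
    (hY : Cardinal.mk Y ≤ Cardinal.mk J) : HQ G (Y → Bool) := by
  classical
  by_contra hHQ
  have hcompL : CompactSpace (Dual.homs (Multiplicative Z)) :=
    isCompact_iff_compactSpace.1 (Dual.isClosed_homs (Multiplicative Z)).isCompact
  -- the embedding of the index set
  have hcard : Cardinal.mk (Option (((Z × ℕ) × (Z × ℕ)) × Y)) ≤ Cardinal.mk J := by
    refine le_trans ?_ hY
    have hYi : Cardinal.aleph0 ≤ Cardinal.mk Y := Cardinal.aleph0_le_mk Y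
    have h1 : Cardinal.mk ((Z × ℕ) × (Z × ℕ)) ≤ Cardinal.aleph0 := Cardinal.mk_le_aleph0
    have h2 : Cardinal.mk (((Z × ℕ) × (Z × ℕ)) × Y) ≤ Cardinal.mk Y := by
      rw [Cardinal.mk_prod, Cardinal.lift_id, Cardinal.lift_id]
      refine (mul_le_mul' (h1.trans hYi) le_rfl).trans ?_
      rw [Cardinal.mul_eq_self hYi]
    rw [Cardinal.mk_option]
    refine (add_le_add_left h2 1).trans ?_
    rw [Cardinal.add_one_eq hYi]
  obtain ⟨e⟩ := (Cardinal.le_def _ _).1 hcard
  let C : Type := Z × ℕ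
  let Th : (C × C → (Y → Bool)) → Set J :=
    fun h => {j | j = e none ∨ ∃ (n : C × C) (y : Y), j = e (some (n, y)) ∧ h n y = true}
  have hTh : ∀ (h : C × C → (Y → Bool)) (n : C × C) (y : Y),
      e (some (n, y)) ∈ Th h ↔ h n y = true := by
    intro h n y
    constructor
    · rintro (h1 | ⟨n', y', h1, h2⟩)
      · have h3 := e.injective h1
        exact absurd h3 (by simp)
      · have h3 := e.injective h1
        rw [Option.some.injEq, Prod.mk.injEq] at h3
        obtain ⟨rfl, rfl⟩ := h3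
        exact h2
    · intro h1
      exact Or.inr ⟨n, y, rfl, h1⟩
  have hTh0 : ∀ h, e none ∈ Th h := fun h => Or.inl rfl
  -- evaluation of `pt` at a unit vector
  have hunit : ∀ (j : J) (a : Z), ∃ χ : K →ₜ* Circle, ∀ (ψ : Dual.homs (Multiplicative Z))
      (T : Set J), χ (pt π ψ T) = if j ∈ T then ψ.1 (Multiplicative.ofAdd a) else 1 := by
    intro j a
    obtain ⟨χ, hχ⟩ := hπ (Finsupp.single j a)
    refine ⟨χ.toMul, fun ψ T => ?_⟩
    rw [pt_spec, ofMul_toMul, hχ, zT_single]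
    split_ifs
    · rfl
    · have h1 := ψ.2 1 1
      rw [mul_one] at h1
      exact mul_eq_left.1 h1.symm
  choose χ hχ using hunit
  -- the maps
  let tt : C × C → G → (Y → Bool) :=
    fun n g y => decide (χ (e (some (n, y))) n.2.1 (ι g) ≠ 1)
  have htt : ∀ (n : C × C) (g : G) (ψ : Dual.homs (Multiplicative Z)) (T : Set J),
      ι g = pt π ψ T → ψ.1 (Multiplicative.ofAdd n.2.1) ≠ 1 → ∀ y,
      (tt n g y = true ↔ e (some (n, y)) ∈ T) := by
    intro n g ψ T hg hψ y
    simp only [tt, decide_eq_true_eq]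
    rw [hg, hχ]
    by_cases h : e (some (n, y)) ∈ T
    · rw [if_pos h]
      exact ⟨fun _ => h, fun _ => hψ⟩
    · rw [if_neg h]
      exact ⟨fun h1 => absurd rfl h1, fun h1 => absurd h1 h⟩
  have hne1 : ∀ (c : C) (ψ : Dual.homs (Multiplicative Z)),
      1 / ((c.2 : ℝ) + 1) ≤ dist (ψ.1 (Multiplicative.ofAdd c.1)) 1 →
      ψ.1 (Multiplicative.ofAdd c.1) ≠ 1 := by
    intro c ψ h1 h2
    rw [h2, dist_self] at h1
    have h3 : (0 : ℝ) < 1 / ((c.2 : ℝ) + 1) := by positivity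
    linarith
  have hcont : ∀ n : C × C, Continuous fun x : EE π ι n.2 => tt n x.1 := by
    intro n
    refine continuous_pi fun y => ?_
    rw [continuous_bool_rng true]
    have hc1 : Continuous fun x : EE π ι n.2 => χ (e (some (n, y))) n.2.1 (ι x.1) :=
      (χ (e (some (n, y))) n.2.1).continuous_toFun.comp (hι.continuous.comp continuous_subtype_val)
    have hset : (fun x : EE π ι n.2 => tt n x.1 y) ⁻¹' {true} =
        {x : EE π ι n.2 | χ (e (some (n, y))) n.2.1 (ι x.1) ≠ 1} := by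
      ext x
      simp only [Set.mem_preimage, Set.mem_singleton_iff, Set.mem_ofPred_eq, tt,
        decide_eq_true_eq]
    have hset2 : {x : EE π ι n.2 | χ (e (some (n, y))) n.2.1 (ι x.1) ≠ 1} =
        {x : EE π ι n.2 | 1 / ((n.2.2 : ℝ) + 1) ≤
          dist (χ (e (some (n, y))) n.2.1 (ι x.1)) 1} := by
      ext x
      obtain ⟨ψ, T, hx, hd⟩ := x.2
      simp only [Set.mem_ofPred_eq]
      rw [hx, hχ]
      by_cases h : e (some (n, y)) ∈ T
      · rw [if_pos h]
        exact ⟨fun _ => hd, fun _ => hne1 n.2 ψ hd⟩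
      · rw [if_neg h]
        constructor
        · intro h1
          exact absurd rfl h1
        · intro h1
          rw [dist_self] at h1
          have h3 : (0 : ℝ) < 1 / ((n.2.2 : ℝ) + 1) := by positivity
          linarith
    rw [hset]
    refine ⟨?_, ?_⟩
    · rw [hset2]
      exact isClosed_le continuous_const (hc1.dist continuous_const)
    · have h1 : {x : EE π ι n.2 | χ (e (some (n, y))) n.2.1 (ι x.1) ≠ 1} =
          (fun x : EE π ι n.2 => χ (e (some (n, y))) n.2.1 (ι x.1)) ⁻¹' {1}ᶜ := by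
        ext x
        simp
      rw [h1]
      exact isClosed_singleton.isOpen_compl.preimage hc1
  -- all maps are bad
  have hbad : ∀ n : C × C, ∃ (A : Set (Y → Bool)) (y : Y → Bool), y ∈ closure A ∧
      ∀ x : EE π ι n.2, tt n x.1 = y → x ∉ closure ((fun x : EE π ι n.2 => tt n x.1) ⁻¹' A) := by
    intro n
    by_contra hno
    push Not at hno
    exact hHQ ⟨EE π ι n.2, fun x => tt n x.1, isClosed_EE π ι hι n.2, hcont n, hno⟩
  choose A y0 hy0 hb using hbad
  -- step F3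
  have hF3 : ∀ h : C × C → (Y → Bool), ∃ ψ : Dual.homs (Multiplicative Z), ψ ≠ 1 ∧
      ∃ g : G, ι g = pt π ψ (Th h) := by
    intro h
    have hcl : IsClosed ((ptHom π (Th h)).range : Set K) := by
      have h1 : ((ptHom π (Th h)).range : Set K) = Set.range (ptHom π (Th h)) := rfl
      rw [h1]
      exact (isCompact_range (continuous_ptHom π (Th h))).isClosed
    have hne : (ptHom π (Th h)).range ≠ ⊥ := by
      intro hbot
      obtain ⟨a, ha⟩ := exists_ne (0 : Z)
      obtain ⟨f, hf⟩ := exists_hom_ne Z a ha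
      let ψ : Dual.homs (Multiplicative Z) := ⟨f, map_mul f⟩
      have h1 : ptHom π (Th h) ψ ∈ (ptHom π (Th h)).range := ⟨ψ, rfl⟩
      rw [hbot, Subgroup.mem_bot] at h1
      have h2 := hχ (e none) a ψ (Th h)
      rw [if_pos (hTh0 h), ← ptHom_apply, h1, map_one] at h2
      exact hf h2.symm
    obtain ⟨g, hg1, ψ, hψ⟩ := hess _ hcl hne
    refine ⟨ψ, ?_, g, hψ.symm⟩
    rintro rfl
    rw [map_one] at hψ
    exact hg1 (hι.injective (by rw [← hψ, map_one]))
  choose Ψ hΨ1 gg hgg using hF3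
  -- step (a): the diagonal argument
  obtain ⟨c, hc⟩ := hDg C (Y → Bool) A y0
    (fun c => {h | 1 / ((c.2 : ℝ) + 1) ≤ dist ((Ψ h).1 (Multiplicative.ofAdd c.1)) 1}) hy0 (by
      intro h _
      have h1 : ∃ b : Multiplicative Z, (Ψ h).1 b ≠ 1 := by
        by_contra hcon
        push Not at hcon
        exact hΨ1 h (Subtype.ext (funext hcon))
      obtain ⟨b, hb⟩ := h1
      obtain ⟨m, hm⟩ := exists_nat_one_div_lt (dist_pos.2 hb)
      exact ⟨(b.toAdd, m), hm.le⟩)
  -- step (b): the ultrafilter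
  let H : Type := {h : C × C → (Y → Bool) // (∀ n, h n ∈ A n) ∧
    1 / ((c.2 : ℝ) + 1) ≤ dist ((Ψ h).1 (Multiplicative.ofAdd c.1)) 1}
  let F : Filter (ℕ × H) := comap Prod.fst atTop ⊓
    comap (fun i : ℕ × H => fun c' => i.2.1 (c, c')) (𝓝 fun c' => y0 (c, c'))
  have hF : F.NeBot := by
    rw [Filter.inf_neBot_iff]
    rintro s ⟨S, hS, hSs⟩ t ⟨U, hU, hUt⟩
    obtain ⟨k, hk⟩ := Filter.nonempty_of_mem hS
    obtain ⟨h, h1, h2, h3⟩ := hc U hU
    exact ⟨(k, ⟨h, h1, h2⟩), hSs hk, hUt h3⟩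
  let u : Ultrafilter (ℕ × H) := Ultrafilter.of F
  have huF : (u : Filter (ℕ × H)) ≤ F := Ultrafilter.of_le F
  have hu1 : Tendsto Prod.fst (u : Filter (ℕ × H)) atTop :=
    tendsto_comap.mono_left (huF.trans inf_le_left)
  have hu2 : Tendsto (fun i : ℕ × H => fun c' => i.2.1 (c, c')) (u : Filter (ℕ × H))
      (𝓝 fun c' => y0 (c, c')) := tendsto_comap.mono_left (huF.trans inf_le_right)
  let T : ℕ × H → Set J := fun i => Th i.2.1
  let Tlim : Set J := {j | ∀ᶠ i in (u : Filter (ℕ × H)), j ∈ T i}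
  obtain ⟨φ, -, hφ⟩ := (isCompact_univ (X := Dual.homs (Multiplicative Z))).ultrafilter_le_nhds
    (u.map fun i : ℕ × H => Ψ i.2.1) (by simp)
  have hφlim : Tendsto (fun i : ℕ × H => Ψ i.2.1) u (𝓝 φ) := hφ
  have hφa : φ.1 (Multiplicative.ofAdd c.1) ≠ 1 := by
    apply hne1 c φ
    have h1 : Tendsto (fun i : ℕ × H => dist ((Ψ i.2.1).1 (Multiplicative.ofAdd c.1)) 1) u
        (𝓝 (dist (φ.1 (Multiplicative.ofAdd c.1)) 1)) :=
      (((hevalc _).tendsto φ).comp hφlim).dist tendsto_const_nhds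
    exact ge_of_tendsto h1 (Eventually.of_forall fun i => i.2.2.2)
  have hT0 : e none ∈ Tlim := Eventually.of_forall fun i => hTh0 i.2.1
  -- step F8
  obtain ⟨g, hg1, ψ, hψcl, hψ⟩ : ∃ g : G, g ≠ 1 ∧ ∃ ψ : Dual.homs (Multiplicative Z),
      ψ ∈ closure (Subgroup.zpowers φ : Set (Dual.homs (Multiplicative Z))) ∧
      pt π ψ Tlim = ι g := by
    let C : Subgroup (Dual.homs (Multiplicative Z)) := (Subgroup.zpowers φ).topologicalClosure
    have hC : IsClosed (C : Set (Dual.homs (Multiplicative Z))) :=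
      Subgroup.isClosed_topologicalClosure _
    have hcl : IsClosed ((C.map (ptHom π Tlim) : Subgroup K) : Set K) := by
      rw [Subgroup.coe_map]
      exact (hC.isCompact.image (continuous_ptHom π Tlim)).isClosed
    have hne : C.map (ptHom π Tlim) ≠ ⊥ := by
      intro hbot
      have h1 : ptHom π Tlim φ ∈ C.map (ptHom π Tlim) :=
        ⟨φ, Subgroup.le_topologicalClosure _ (Subgroup.mem_zpowers φ), rfl⟩
      rw [hbot, Subgroup.mem_bot] at h1
      have h2 := hχ (e none) c.1 φ Tlim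
      rw [if_pos hT0, ← ptHom_apply, h1, map_one] at h2
      exact hφa h2.symm
    obtain ⟨g, hg1, ψ, hψ, hψg⟩ := hess _ hcl hne
    exact ⟨g, hg1, ψ, hψ, hψg⟩
  -- step (c)
  have hZc : Countable (Multiplicative Z) := inferInstanceAs (Countable Z)
  have hfc : FirstCountableTopology (Multiplicative Z → Circle) := inferInstance
  have hfc' : FirstCountableTopology (Dual.homs (Multiplicative Z)) :=
    Topology.IsInducing.subtypeVal.firstCountableTopology
  obtain ⟨U, hU⟩ := (𝓝 ψ).exists_antitone_basis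
  have hv : ∀ j, ∃ v : ℤ, ∀ᶠ i in (u : Filter (ℕ × H)), (Ψ i.2.1) ^ v ∈ U j := by
    intro j
    have h1 : U j ∈ 𝓝 ψ := hU.mem j
    have h2 : interior (U j) ∈ 𝓝 ψ := interior_mem_nhds.2 h1
    obtain ⟨_, hy, v, rfl⟩ := mem_closure_iff_nhds.1 hψcl _ h2
    refine ⟨v, ?_⟩
    have h3 : Tendsto (fun i : ℕ × H => (Ψ i.2.1) ^ v) u (𝓝 (φ ^ v)) := hφlim.zpow v
    have h4 : U j ∈ 𝓝 (φ ^ v) := mem_interior_iff_mem_nhds.1 hy
    exact h3 h4
  choose v hv using hv
  obtain ⟨f, hf1, hf2⟩ := IMn.exists_select (u : Filter (ℕ × H)) hu1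
    (fun j => {i | (Ψ i.2.1) ^ (v j) ∈ U j}) hv
  let ψn : ℕ × H → Dual.homs (Multiplicative Z) := fun i => (Ψ i.2.1) ^ (v (f i))
  have hψlim : Tendsto ψn u (𝓝 ψ) := by
    rw [hU.tendsto_right_iff]
    intro j _
    filter_upwards [hf1.eventually_ge_atTop j, hf2] with n h1 h2
    exact hU.antitone h1 h2
  let yy : ℕ × H → G := fun i => (gg i.2.1) ^ (v (f i))
  have hy : ∀ i, ι (yy i) = pt π (ψn i) (T i) := by
    intro i
    simp only [yy, ψn, T]
    rw [map_zpow, hgg, ← ptHom_apply, ← map_zpow, ptHom_apply]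
  have hylim : Tendsto yy u (𝓝 g) := by
    rw [hι.tendsto_nhds_iff, ← hψ]
    refine Tendsto.congr (fun i => (hy i).symm) ?_
    exact tendsto_pt π u ψn T ψ hψlim
  -- step (d)
  have hψ1 : ψ ≠ 1 := by
    rintro rfl
    rw [← ptHom_apply, map_one] at hψ
    exact hg1 (hι.injective (by rw [← hψ, map_one]))
  obtain ⟨a', ha'⟩ : ∃ b : Multiplicative Z, ψ.1 b ≠ 1 := by
    by_contra hcon
    push Not at hcon
    exact hψ1 (Subtype.ext (funext hcon))
  obtain ⟨m', hm'⟩ := exists_nat_one_div_lt (dist_pos.2 ha')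
  obtain ⟨n, hn⟩ : ∃ n : C × C, n = (c, (a'.toAdd, m')) := ⟨_, rfl⟩
  have hn1 : n.2 = (a'.toAdd, m') := by rw [hn]
  have hψd : 1 / ((n.2.2 : ℝ) + 1) < dist (ψ.1 (Multiplicative.ofAdd n.2.1)) 1 := by
    rw [hn1]
    exact hm'
  have hgE : g ∈ EE π ι n.2 := ⟨ψ, Tlim, hψ.symm, hψd.le⟩
  have hcoord : ∀ y, (∀ᶠ i in (u : Filter (ℕ × H)), i.2.1 n y = y0 n y) := by
    intro y
    have h1 : Tendsto (fun i : ℕ × H => i.2.1 n y) u (𝓝 (y0 n y)) := by
      rw [hn]
      exact tendsto_pi_nhds.1 (tendsto_pi_nhds.1 hu2 (a'.toAdd, m')) y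
    have h2 : {b : Bool | b = y0 n y} ∈ 𝓝 (y0 n y) := by
      rw [nhds_discrete]
      exact rfl
    exact h1 h2
  have htg : tt n g = y0 n := by
    funext y
    have h1 := htt n g ψ Tlim hψ.symm (hne1 n.2 ψ hψd.le) y
    have h2 : e (some (n, y)) ∈ Tlim ↔ y0 n y = true := by
      constructor
      · intro h3
        have h4 : ∀ᶠ i in (u : Filter (ℕ × H)), e (some (n, y)) ∈ T i := h3
        obtain ⟨i, h5, h6⟩ := (h4.and (hcoord y)).exists
        rw [← h6]
        exact (hTh i.2.1 n y).1 h5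
      · intro h3
        have h4 : ∀ᶠ i in (u : Filter (ℕ × H)), e (some (n, y)) ∈ T i := by
          filter_upwards [hcoord y] with i hi
          exact (hTh i.2.1 n y).2 (hi.trans h3)
        exact h4
    rw [h2] at h1
    exact Bool.eq_iff_iff.2 h1
  apply hb n ⟨g, hgE⟩ htg
  rw [closure_subtype]
  refine mem_closure_of_tendsto hylim ?_
  have hD : ∀ᶠ i in (u : Filter (ℕ × H)),
      1 / ((n.2.2 : ℝ) + 1) ≤ dist ((ψn i).1 (Multiplicative.ofAdd n.2.1)) 1 := by
    have h1 : Tendsto (fun i => dist ((ψn i).1 (Multiplicative.ofAdd n.2.1)) 1) u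
        (𝓝 (dist (ψ.1 (Multiplicative.ofAdd n.2.1)) 1)) :=
      (((hevalc _).tendsto ψ).comp hψlim).dist tendsto_const_nhds
    exact h1.eventually (Ici_mem_nhds hψd)
  filter_upwards [hD] with i hi
  refine ⟨⟨yy i, ψn i, T i, hy i, hi⟩, ?_, rfl⟩
  have h1 : tt n (yy i) = i.2.1 n := by
    funext y
    have h2 := htt n (yy i) (ψn i) (T i) (hy i) (hne1 n.2 (ψn i) hi) y
    rw [hTh] at h2
    exact Bool.eq_iff_iff.2 h2
  show tt n (yy i) ∈ A n
  rw [h1]
  exact i.2.2.1 n

end Pool.Agent.Work.MP_7406cc_gt.UT
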