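import Pool.Agent.Work.MP_7406cc_gt.Essential
import Pool.Agent.Work.MP_7406cc_gt.Converse
import Pool.Agent.Work.MP_7406cc_gt.PS.All
import Pool.Agent.Work.MP_7406cc_gt.UT.I_Mn

/-!
# Block UT: assembly
-/

set_option autoImplicit false

open Filter Topology Set

namespace Pool.Agent.Work.MP_7406cc_gt.UT

theorem hq_of (hAl : St_Al) (hDu : St_Du) (hDg : St_Dg) (hSu : St_Su) (hHi : St_Hi) (hEm : St_Em)
    (hHc : St_Hc) (hUn : St_Un)
    (κ : Cardinal.{0}) (hκ : Cardinal.aleph0 < κ.ord.cof)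
    (G : Type) [CommGroup G] [τ : TopologicalSpace G] [IsTopologicalGroup G] [T2Space G]
    (hmin : ∀ t : TopologicalSpace G, τ ≤ t → @IsTopologicalGroup G t _ → @T2Space G t → t = τ)
    (hw : WGe κ G) (M : Type) [TopologicalSpace M] [CompactSpace M] [T2Space M] (hM : WLe κ M) :
    HQ G M := by
  have hκ0 : Cardinal.aleph0 < κ := (hUn κ hκ).1
  have htb := PS.precompact_of_minimal PS.all_PS G hmin
  obtain ⟨K, _, _, _, _, _, ι, hι, hd⟩ := Essential.exists_completion G htb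
  have hess := Essential.essential_of_minimal hmin ι hι hd
  have hind : Topology.IsInducing fun (g : G) (χ : K →ₜ* Circle) => χ (ι g) :=
    (Dual.isEmbedding_ev (K := K)).isInducing.comp hι.isInducing
  have hcard : κ ≤ Cardinal.mk (K →ₜ* Circle) := hDu κ hκ0 G (K →ₜ* Circle) _ hind hw
  obtain ⟨Z, _, _, _, J, hJ, π, hπ⟩ := hAl κ hκ (Additive (K →ₜ* Circle)) hcard
  have hY : Cardinal.mk κ.ord.ToType = κ := Cardinal.mk_ord_toType κ
  have hYi : Infinite κ.ord.ToType := by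
    rw [Cardinal.infinite_iff, hY]
    exact hκ0.le
  have h1 : HQ G (κ.ord.ToType → Bool) :=
    pr_Mn hDg π ι hι hess hπ κ.ord.ToType (hY.le.trans hJ)
  obtain ⟨q, hq1, hq2⟩ := hSu κ.ord.ToType hYi
  have h2 : HQ G (κ.ord.ToType → unitInterval) := hHi G _ _ q hq1 hq2 h1
  obtain ⟨f, hf⟩ := hEm κ hκ0.le κ.ord.ToType M hY hM
  exact hHc G _ M f hf h2

/-- The statement of the hand-in. -/
def Main_UT : Prop :=
  (∀ κ : Cardinal.{0}, Cardinal.aleph0 < κ.ord.cof →
    (∀ (G : Type) [CommGroup G] [τ : TopologicalSpace G] [IsTopologicalGroup G] [T2Space G],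
      (∀ t : TopologicalSpace G, τ ≤ t → @IsTopologicalGroup G t _ → @T2Space G t → t = τ) →
      WGe κ G → ∀ (M : Type) [TopologicalSpace M] [CompactSpace M] [T2Space M], WLe κ M →
        HQ G M) ∧
    ((∃ (G : Type) (_ : CommGroup G) (τ : TopologicalSpace G),
      IsTopologicalGroup G ∧ T2Space G ∧
      (∀ t : TopologicalSpace G, τ ≤ t → @IsTopologicalGroup G t _ → @T2Space G t → t = τ) ∧
      WGe κ G ∧ PR G) ↔
      ∀ (M : Type) [TopologicalSpace M] [CompactSpace M] [T2Space M], WLe κ M → PR M)) ∧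
  ∀ (G : Type) [CommGroup G] [τ : TopologicalSpace G] [IsTopologicalGroup G] [T2Space G],
    (∀ t : TopologicalSpace G, τ ≤ t → @IsTopologicalGroup G t _ → @T2Space G t → t = τ) →
    RD G → TopologicalSpace.MetrizableSpace G

theorem main_UT (hAl : St_Al) (hDu : St_Du) (hDg : St_Dg) (hSu : St_Su) (hHi : St_Hi)
    (hEm : St_Em) (hHc : St_Hc) (hUn : St_Un) (hPr : St_Pr) (hRa : St_Ra) (hNr : St_Nr)
    (hWt : St_Wt) (hWm : St_Wm) : Main_UT := by
  have key := hq_of hAl hDu hDg hSu hHi hEm hHc hUn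
  have hκ0 : ∀ κ : Cardinal.{0}, Cardinal.aleph0 < κ.ord.cof → Cardinal.aleph0 < κ :=
    fun κ hκ => (hUn κ hκ).1
  refine ⟨fun κ hκ => ⟨?_, ?_, ?_⟩, ?_⟩
  · intro G _ _ _ _ hmin hw M _ _ _ hM
    exact key κ hκ G hmin hw M hM
  · rintro ⟨G, _, τ, i1, i2, hmin, hw, hpr⟩ M _ _ _ hM
    exact hPr G M (key κ hκ G hmin hw M hM) hpr
  · intro hall
    let i1 : TopologicalSpace (Multiplicative (ZMod 2)) := ⊥
    have i2 : DiscreteTopology (Multiplicative (ZMod 2)) := ⟨rfl⟩
    have i3 : IsTopologicalGroup (Multiplicative (ZMod 2)) := inferInstance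
    have i4 : Finite (Multiplicative (ZMod 2)) := inferInstanceAs (Finite (ZMod 2))
    have i5 : Nontrivial (Multiplicative (ZMod 2)) := inferInstanceAs (Nontrivial (ZMod 2))
    have i6 : CompactSpace (Multiplicative (ZMod 2)) := Finite.compactSpace
    have hY : Cardinal.mk κ.ord.ToType = κ := Cardinal.mk_ord_toType κ
    have hYi : Infinite κ.ord.ToType := by
      rw [Cardinal.infinite_iff, hY]
      exact (hκ0 κ hκ).le
    have i7 : CompactSpace (κ.ord.ToType → Multiplicative (ZMod 2)) := Pi.compactSpace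
    obtain ⟨hw1, hw2⟩ := hWt (Multiplicative (ZMod 2)) κ.ord.ToType
    rw [hY] at hw1 hw2
    exact ⟨κ.ord.ToType → Multiplicative (ZMod 2), inferInstance, inferInstance, inferInstance,
      inferInstance, fun t ht _ ht2 => Converse.eq_of_le _ t i7 ht2 ht, hw1, hall _ hw2⟩
  · intro G _ τ _ _ hmin hrd
    by_contra hnm
    have hcof : Cardinal.aleph0 < (Cardinal.aleph 1).ord.cof := by
      rw [Cardinal.isRegular_aleph_one.cof_ord]
      exact Cardinal.aleph0_lt_aleph_one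
    have hY : Cardinal.mk (Cardinal.aleph 1).ord.ToType = Cardinal.aleph 1 :=
      Cardinal.mk_ord_toType _
    have hYu : Uncountable (Cardinal.aleph 1).ord.ToType := by
      rw [← Cardinal.aleph0_lt_mk_iff, hY]
      exact Cardinal.aleph0_lt_aleph_one
    obtain ⟨-, hw2⟩ := hWt Bool (Cardinal.aleph 1).ord.ToType
    rw [hY] at hw2
    exact hNr _ hYu (hRa G _ (key (Cardinal.aleph 1) hcof G hmin (hWm G hnm) _ hw2) hrd)

end Pool.Agent.Work.MP_7406cc_gt.UT
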