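import Pool.Agent.Work.MP_7406cc_gt.UT.Stmts

/-!
# Item Fr of block UT: divisible groups with small torsion
-/

set_option autoImplicit false

open TensorProduct

namespace Pool.Agent.Work.MP_7406cc_gt.UT

namespace IFr

lemma torsion_small (κ : Cardinal.{0}) (hκ : Cardinal.aleph0 < κ) (h2 : St_Sq)
    (V : Type) [AddCommGroup V]
    (hT : ∀ p : ℕ, p.Prime → Cardinal.mk (nsmulAddMonoidHom p : V →+ V).ker < κ) :
    ∀ n : ℕ, n ≠ 0 → Cardinal.mk (nsmulAddMonoidHom n : V →+ V).ker < κ := by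
  intro n
  induction n using Nat.recOnMul with
  | zero => intro h; exact absurd rfl h
  | one =>
    intro _
    have : Subsingleton (nsmulAddMonoidHom 1 : V →+ V).ker := by
      constructor
      rintro ⟨a, ha⟩ ⟨b, hb⟩
      rw [AddMonoidHom.mem_ker, nsmulAddMonoidHom_apply, one_smul] at ha hb
      exact Subtype.ext (ha.trans hb.symm)
    exact lt_of_le_of_lt Cardinal.mk_le_aleph0 hκ
  | prime p hp => intro _; exact hT p hp
  | mul a b iha ihb =>
    intro hab
    have ha : a ≠ 0 := left_ne_zero_of_mul hab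
    have hb : b ≠ 0 := right_ne_zero_of_mul hab
    let f : (nsmulAddMonoidHom (a * b) : V →+ V).ker →+ (nsmulAddMonoidHom b : V →+ V).ker :=
      { toFun := fun x => ⟨a • x.1, by
          have hx := x.2
          rw [AddMonoidHom.mem_ker, nsmulAddMonoidHom_apply] at hx ⊢
          rw [← mul_smul, mul_comm]
          exact hx⟩
        map_zero' := by ext; simp
        map_add' := fun x y => by ext; simp }
    apply (h2 κ hκ.le).2 _ _ f (ihb hb)
    have := iha ha
    let g : f.ker → (nsmulAddMonoidHom a : V →+ V).ker := fun x => ⟨x.1.1, by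
      have hx := x.2
      rw [AddMonoidHom.mem_ker] at hx ⊢
      exact congrArg Subtype.val hx⟩
    have hg : Function.Injective g := by
      intro x y hxy
      apply Subtype.ext
      apply Subtype.ext
      exact congrArg (fun z : (nsmulAddMonoidHom a : V →+ V).ker => z.1) hxy
    exact lt_of_le_of_lt (Cardinal.mk_le_of_injective hg) this

end IFr

theorem pr_Fr (h1 : St_Un) (h2 : St_Sq) (h3 : St_Md) : St_Fr := by
  intro κ hcof V _ hV hdiv hT
  obtain ⟨hκ, hUn⟩ := h1 κ hcof
  have hn := IFr.torsion_small κ hκ h2 V hT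
  -- base change to the rationals
  let f : V →ₗ[ℤ] (ℚ ⊗[ℤ] V) := TensorProduct.mk ℤ ℚ V 1
  have hloc : IsLocalizedModule (nonZeroDivisors ℤ) f :=
    (isLocalizedModule_iff_isBaseChange (nonZeroDivisors ℤ) ℚ f).2
      (TensorProduct.isBaseChange ℤ V ℚ)
  have hf : Function.Surjective f := by
    intro x
    induction x using TensorProduct.induction_on with
    | zero => exact ⟨0, map_zero _⟩
    | tmul q v =>
      obtain ⟨w, hw⟩ := hdiv q.den q.den_nz v
      refine ⟨q.num • w, ?_⟩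
      change (1 : ℚ) ⊗ₜ[ℤ] (q.num • w) = q ⊗ₜ[ℤ] v
      rw [← hw, ← natCast_zsmul, ← TensorProduct.smul_tmul, ← TensorProduct.smul_tmul]
      congr 1
      rw [zsmul_eq_mul, zsmul_eq_mul, mul_one]
      have := q.num_div_den
      have h0 : (q.den : ℚ) ≠ 0 := by exact_mod_cast q.den_nz
      push_cast
      rw [mul_comm]
      exact (Rat.mul_den_eq_num q).symm
    | add x y hx hy =>
      obtain ⟨a, rfl⟩ := hx
      obtain ⟨b, rfl⟩ := hy
      exact ⟨a + b, map_add _ _ _⟩
  have hk : Cardinal.mk f.toAddMonoidHom.ker < κ := by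
    have h1 : (f.toAddMonoidHom.ker : Set V) ⊆
        ⋃ n : ℕ, ((nsmulAddMonoidHom (n + 1) : V →+ V).ker : Set V) := by
      intro v hv
      have hv' : f v = 0 := hv
      rw [IsLocalizedModule.eq_zero_iff (nonZeroDivisors ℤ) f] at hv'
      obtain ⟨c, hc⟩ := hv'
      rw [Set.mem_iUnion]
      have hc0 : (c : ℤ) ≠ 0 := nonZeroDivisors.ne_zero c.2
      have hc1 : (c : ℤ).natAbs ≠ 0 := Int.natAbs_ne_zero.2 hc0
      refine ⟨(c : ℤ).natAbs - 1, ?_⟩
      change ((c : ℤ).natAbs - 1 + 1) • v = 0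
      rw [Nat.sub_add_cancel (Nat.one_le_iff_ne_zero.2 hc1)]
      have hc' : (c : ℤ) • v = 0 := hc
      rcases Int.natAbs_eq (c : ℤ) with h | h
      · rw [h, natCast_zsmul] at hc'
        exact hc'
      · rw [h, neg_smul, natCast_zsmul, neg_eq_zero] at hc'
        exact hc'
    have h2 := hUn V (fun n : ℕ => ((nsmulAddMonoidHom (n + 1) : V →+ V).ker : Set V))
      (fun n => hn (n + 1) n.succ_ne_zero)
    exact lt_of_le_of_lt (Cardinal.mk_le_mk_of_subset h1) h2
  have hW : κ ≤ Cardinal.mk (ℚ ⊗[ℤ] V) := by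
    by_contra h
    rw [not_le] at h
    exact absurd ((h2 κ hκ.le).2 _ _ f.toAddMonoidHom h hk) (not_lt.2 hV)
  obtain ⟨J, hJ, e, r, hr⟩ := h3 κ hκ ℚ (ℚ ⊗[ℤ] V) hW
  exact ⟨ℚ, inferInstance, inferInstance, inferInstance, J, hJ,
    r.toAddMonoidHom.comp f.toAddMonoidHom, r.surjective.comp hf⟩

end Pool.Agent.Work.MP_7406cc_gt.UT
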