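import Pool.Agent.Work.MP_7406cc_gt.UT.Stmts

/-!
# Item Md of MP_7406cc_gt, module UT

A vector space over a countable field of size at least `κ > ℵ₀` has a basis of size at least `κ`.
-/

set_option autoImplicit false

namespace Pool.Agent.Work.MP_7406cc_gt.UT

namespace IMd

/-- The index set of a basis is large. -/
lemma index_le (κ : Cardinal.{0}) (hκ : Cardinal.aleph0 < κ) (k W J : Type) [Field k] [Countable k]
    [AddCommGroup W] [Module k W] (hW : κ ≤ Cardinal.mk W) (b : Module.Basis J k W) :
    κ ≤ Cardinal.mk J := by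
  by_contra hlt
  have hlt : Cardinal.mk J < κ := not_le.mp hlt
  have h1 : Cardinal.mk W = Cardinal.mk (J →₀ k) := Cardinal.mk_congr b.repr.toEquiv
  rcases finite_or_infinite J with hf | hi
  · have hc : Countable (J →₀ k) := inferInstance
    have h2 : Cardinal.mk (J →₀ k) ≤ Cardinal.aleph0 := Cardinal.mk_le_aleph0
    exact absurd (hW.trans (h1.le.trans h2)) (not_le.mpr hκ)
  · have h2 : Cardinal.mk (J →₀ k) = max (Cardinal.mk J) (Cardinal.mk k) := by
      exact Cardinal.mk_finsupp_of_infinite J k
    have h3 : Cardinal.mk k ≤ Cardinal.aleph0 := Cardinal.mk_le_aleph0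
    have h4 : max (Cardinal.mk J) (Cardinal.mk k) < κ := max_lt hlt (h3.trans_lt hκ)
    exact absurd (hW.trans (h1.le.trans h2.le)) (not_le.mpr h4)

end IMd

theorem pr_Md : St_Md := by
  intro κ hκ k W _ _ _ _ hW
  let b := Module.Basis.ofVectorSpace k W
  exact ⟨_, IMd.index_le κ hκ k W _ hW b, b, b.repr.toAddEquiv, fun j => b.repr_self j⟩

end Pool.Agent.Work.MP_7406cc_gt.UT
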