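import Pool.Agent.Work.MP_7406cc_gt.UT.Stmts

/-!
# Block UT, item Pr: pseudoradiality passes to hereditarily quotient images of closed subspaces
-/

set_option autoImplicit false

open Filter Topology Set

namespace Pool.Agent.Work.MP_7406cc_gt.UT

/-- Item Pr. -/
theorem pr_Pr : St_Pr := by
  rintro G M _ _ ⟨E, t, hE, ht, hq⟩ hG A hA
  obtain ⟨y, hy, hyA⟩ : ∃ y, y ∈ closure A ∧ y ∉ A := by
    by_contra hcon
    push Not at hcon
    exact hA (isClosed_of_closure_subset hcon)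
  obtain ⟨x, hxy, hx⟩ := hq A y hy
  have hx' : (x : G) ∈ closure (Subtype.val '' (t ⁻¹' A)) := closure_subtype.1 hx
  have hncl : ¬ IsClosed (Subtype.val '' (t ⁻¹' A) : Set G) := by
    intro hcl
    rw [hcl.closure_eq] at hx'
    obtain ⟨z, hz, hzx⟩ := hx'
    have h1 : z = x := Subtype.ext hzx
    rw [h1, mem_preimage, hxy] at hz
    exact hyA hz
  obtain ⟨ι, i1, i2, i3, s, p, hs, hp, hlim⟩ := hG _ hncl
  have hsE : ∀ i, s i ∈ E := by
    intro i
    obtain ⟨z, _, hz⟩ := hs i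
    rw [← hz]
    exact z.2
  have hpE : p ∈ E := hE.mem_of_tendsto hlim (Eventually.of_forall hsE)
  refine ⟨ι, i1, i2, i3, fun i => t ⟨s i, hsE i⟩, t ⟨p, hpE⟩, ?_, ?_, ?_⟩
  · intro i
    obtain ⟨z, hz, hzs⟩ := hs i
    have h1 : z = ⟨s i, hsE i⟩ := Subtype.ext hzs
    subst h1
    exact hz
  · intro h
    exact hp ⟨⟨p, hpE⟩, h, rfl⟩
  · have h1 : Tendsto (fun i => (⟨s i, hsE i⟩ : E)) atTop (𝓝 ⟨p, hpE⟩) :=
      tendsto_subtype_rng.2 hlim
    exact (ht.tendsto ⟨p, hpE⟩).comp h1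

end Pool.Agent.Work.MP_7406cc_gt.UT
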