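import Pool.Agent.Work.MP_7406cc_gt.UT.Stmts

set_option autoImplicit false

namespace Pool.Agent.Work.MP_7406cc_gt.UT

namespace ISq

theorem first (κ : Cardinal.{0}) (hκ : Cardinal.aleph0 ≤ κ) (G : Type) [AddCommGroup G]
    (s : AddSubgroup G) (h1 : Cardinal.mk s < κ) (h2 : Cardinal.mk (G ⧸ s) < κ) :
    Cardinal.mk G < κ := by
  have e : G ≃ (G ⧸ s) × s := AddSubgroup.addGroupEquivQuotientProdAddSubgroup
  have h3 : Cardinal.mk G = Cardinal.mk (G ⧸ s) * Cardinal.mk s := by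
    rw [Cardinal.mk_congr e, Cardinal.mul_def]
  rw [h3]
  exact Cardinal.mul_lt_of_lt hκ h2 h1

end ISq

theorem pr_Sq : St_Sq := by
  intro κ hκ
  refine ⟨fun G _ s h1 h2 => ISq.first κ hκ G s h1 h2, ?_⟩
  intro G H _ _ f hH hk
  refine ISq.first κ hκ G f.ker hk ?_
  exact lt_of_le_of_lt (Cardinal.mk_le_of_injective (QuotientAddGroup.kerLift_injective f)) hH

end Pool.Agent.Work.MP_7406cc_gt.UT
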