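import Pool.Agent.Work.MP_7406cc_gt.UT.Stmts
import Pool.Agent.Work.MP_7406cc_gt.Alg

/-!
# Block UT, item To: divisible groups with a large socle
-/

set_option autoImplicit false

namespace Pool.Agent.Work.MP_7406cc_gt.UT

open Pool.Agent.Work.MP_7406cc_gt.Alg (locA z0 F1 F2 F3 F4 F6)

theorem pr_To (hMd : St_Md) : St_To := by
  intro κ hκ p hp V _ hdiv h
  have : Fact p.Prime := ⟨hp⟩
  let T := (nsmulAddMonoidHom p : V →+ V).ker
  let _ : Module (ZMod p) T := AddCommGroup.zmodModule (n := p) (by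
    intro x
    apply Subtype.ext
    exact x.2)
  obtain ⟨J, hJ, e, r, hr⟩ := hMd κ hκ (ZMod p) T h
  let Z := ℚ ⧸ locA p hp
  -- divisibility of the direct sum
  have hsurj : ∀ {n : ℤ}, n ≠ 0 → Function.Surjective (fun x : J →₀ Z => n • x) := by
    intro n hn x
    induction x using Finsupp.induction_linear with
    | zero => exact ⟨0, smul_zero _⟩
    | add x y hx hy =>
      obtain ⟨a, rfl⟩ := hx
      obtain ⟨c, rfl⟩ := hy
      exact ⟨a + c, smul_add _ _ _⟩
    | single j z =>
      obtain ⟨w, hw⟩ := F6 p hp hn z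
      exact ⟨Finsupp.single j w, by simp only [Finsupp.smul_single, hw]⟩
  let _ : DivisibleBy (J →₀ Z) ℤ := divisibleByOfSMulRightSurj _ _ hsurj
  -- the map on the socle
  let l : ZMod p →+ Z := ZMod.lift p ⟨zmultiplesHom Z (z0 p hp), by
    simp only [zmultiplesHom_apply, natCast_zsmul]
    exact F1 p hp⟩
  have hl : l 1 = z0 p hp := by
    have := ZMod.lift_coe p (⟨zmultiplesHom Z (z0 p hp), by
      simp only [zmultiplesHom_apply, natCast_zsmul]
      exact F1 p hp⟩ : {f : ℤ →+ Z // f p = 0}) 1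
    simpa using this
  let g : T →+ (J →₀ Z) := (Finsupp.mapRange.addMonoidHom l).comp r.toAddMonoidHom
  obtain ⟨f, hf⟩ := (Module.Baer.of_divisible (J →₀ Z)).extension_property_addMonoidHom
    T.subtype T.subtype_injective g
  have hfe : ∀ j, f (e j : V) = Finsupp.single j (z0 p hp) := by
    intro j
    have h1 := DFunLike.congr_fun hf (e j)
    change f (e j : V) = g (e j) at h1
    rw [h1]
    change Finsupp.mapRange l (map_zero l) (r (e j)) = _
    rw [hr, Finsupp.mapRange_single, hl]
  -- the socle is in the range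
  have hsoc : ∀ x : J →₀ Z, p • x = 0 → x ∈ f.range := by
    intro x hx
    rw [← Finsupp.sum_single x]
    apply AddSubgroup.sum_mem
    intro j _
    have hxj : p • x j = 0 := by
      have := DFunLike.congr_fun hx j
      simpa using this
    obtain ⟨k, hk⟩ := F2 p hp (x j) hxj
    refine ⟨k • (e j : V), ?_⟩
    rw [map_zsmul, hfe, hk, Finsupp.smul_single]
  have hpow : ∀ n : ℕ, ∀ x : J →₀ Z, p ^ n • x = 0 → x ∈ f.range := by
    intro n
    induction n with
    | zero =>
      intro x hx
      rw [pow_zero, one_smul] at hx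
      rw [hx]
      exact f.range.zero_mem
    | succ n ih =>
      intro x hx
      rw [pow_succ, mul_smul] at hx
      obtain ⟨v, hv⟩ := ih _ hx
      obtain ⟨w, hw⟩ := hdiv p hp.ne_zero v
      have h1 : p • (x - f w) = 0 := by
        rw [smul_sub, ← map_nsmul, hw, hv, sub_self]
      have h2 := f.range.add_mem (hsoc _ h1) ⟨w, rfl⟩
      rwa [sub_add_cancel] at h2
  have htor : ∀ x : J →₀ Z, ∃ n : ℕ, p ^ n • x = 0 := by
    intro x
    induction x using Finsupp.induction_linear with
    | zero => exact ⟨0, smul_zero _⟩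
    | add x y hx hy =>
      obtain ⟨a, ha⟩ := hx
      obtain ⟨c, hc⟩ := hy
      refine ⟨a + c, ?_⟩
      rw [smul_add, pow_add]
      nth_rewrite 1 [mul_comm (p ^ a) (p ^ c)]
      rw [mul_smul, mul_smul, ha, hc, smul_zero, smul_zero, add_zero]
    | single j z =>
      obtain ⟨n, hn⟩ := F3 p hp z
      exact ⟨n, by rw [Finsupp.smul_single, hn, Finsupp.single_zero]⟩
  have hZ : Countable Z := Quotient.countable
  refine ⟨Z, inferInstance, hZ, ⟨⟨z0 p hp, 0, F4 p hp⟩⟩, J, hJ, f, fun x => ?_⟩
  obtain ⟨n, hn⟩ := htor x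
  exact hpow n x hn

end Pool.Agent.Work.MP_7406cc_gt.UT
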